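import Pool.Agent.X26.SV.Multi
import Pool.Agent.H381R2.HR.Main

/-!
# Unsifted positions and windows with the maximal number of almost primes
-/

set_option autoImplicit false

namespace Pool.Agent.X26.SV

open Finset Filter

open Classical in
/-- the `t ∈ (0, k]` for which `m + t` has no prime factor `p ≤ k` -/
noncomputable def unsifted (m k : ℕ) : Finset ℕ :=
  (Ioc 0 k).filter (fun t => ∀ p : ℕ, p.Prime → p ≤ k → ¬ p ∣ m + t)

/-- `T` is the set of the unsifted positions of an interval with the maximal number of unsifted positions -/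
def Ext (k : ℕ) (T : Finset ℕ) : Prop := (∃ m : ℕ, unsifted m k = T) ∧ ∀ m : ℕ, (unsifted m k).card ≤ T.card

/-- `N` is a product of at most `j` primes, all of them larger than `w` -/
def AlN (j : ℕ) (w : ℝ) (N : ℕ) : Prop :=
  N ≠ 0 ∧ N.primeFactorsList.length ≤ j ∧ ∀ q : ℕ, q.Prime → q ∣ N → w < q

open Classical in
/-- the number of almost primes in `(n, n + k]` -/
noncomputable def cnt (j x n k : ℕ) : ℕ :=
  ((Ioc n (n + k)).filter (fun t => AlN j ((x : ℝ) ^ (1 / (j : ℝ))) t)).card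

open Classical in
/-- the positions of the almost primes in `(n, n + k]` -/
noncomputable def pos (j x k n : ℕ) : Finset ℕ :=
  (Ioc 0 k).filter (fun t => AlN j ((x : ℝ) ^ (1 / (j : ℝ))) (n + t))

theorem cnt_eq (j x n k : ℕ) : cnt j x n k = (pos j x k n).card := by
  classical
  symm
  unfold pos cnt
  refine card_bij (fun t _ => n + t) ?_ ?_ ?_
  · intro t ht
    rw [mem_filter, mem_Ioc] at ht ⊢
    exact ⟨⟨by omega, by omega⟩, ht.2⟩
  · intro a _ b _ hab
    exact Nat.add_left_cancel hab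
  · intro v hv
    rw [mem_filter, mem_Ioc] at hv
    refine ⟨v - n, ?_, by omega⟩
    rw [mem_filter, mem_Ioc, show n + (v - n) = v by omega]
    exact ⟨⟨by omega, by omega⟩, hv.2⟩

theorem uns_card_le (m k : ℕ) : (unsifted m k).card ≤ k := by
  classical
  unfold unsifted
  refine (card_filter_le _ _).trans ?_
  rw [Nat.card_Ioc]
  omega

theorem exists_ext (k : ℕ) : ∃ T, Ext k T := by
  obtain ⟨m, hm⟩ : ∃ m : ℕ, ∀ m', (unsifted m' k).card ≤ (unsifted m k).card := by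
    have h1 : (Set.range fun m => (unsifted m k).card).Nonempty := ⟨(unsifted 0 k).card, 0, rfl⟩
    have h2 : BddAbove (Set.range fun m => (unsifted m k).card) :=
      ⟨k, by rintro _ ⟨m, rfl⟩; exact uns_card_le m k⟩
    obtain ⟨m, hm⟩ := Nat.sSup_mem h1 h2
    refine ⟨m, fun m' => ?_⟩
    change (unsifted m k).card = _ at hm
    rw [hm]
    exact le_csSup h2 ⟨m', rfl⟩
  exact ⟨unsifted m k, ⟨m, rfl⟩, fun m' => hm m'⟩

theorem ext_sub {k : ℕ} {T : Finset ℕ} (hT : Ext k T) : T ⊆ Ioc 0 k := by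
  classical
  obtain ⟨⟨m, rfl⟩, _⟩ := hT
  unfold unsifted
  exact filter_subset _ _

theorem ext_adm {k : ℕ} {T : Finset ℕ} (hT : Ext k T) : Pool.Agent.Y843.AC.HL.Adm (iT T) := by
  classical
  have hsub := ext_sub hT
  obtain ⟨⟨m, hm⟩, _⟩ := hT
  intro q hq
  unfold Pool.Agent.Y843.AC.HL.nu
  by_cases hqk : q ≤ k
  · have h1 : (iT T).image (fun t : ℤ => t % q) ⊆
        ((range q).image (fun a : ℕ => (a : ℤ))).erase ((-(m : ℤ)) % q) := by
      intro v hv
      rw [mem_image] at hv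
      obtain ⟨t, ht, rfl⟩ := hv
      obtain ⟨s, hs, rfl⟩ := mem_iT.1 ht
      have hq0 : (0 : ℤ) < q := by exact_mod_cast hq.pos
      rw [mem_erase]
      constructor
      · intro hcon
        rw [← hm] at hs
        unfold unsifted at hs
        rw [mem_filter] at hs
        apply hs.2 q hq hqk
        have h3 : (q : ℤ) ∣ -(m : ℤ) - (s : ℤ) := Int.ModEq.dvd hcon
        have h4 : (q : ℤ) ∣ ((m + s : ℕ) : ℤ) := by
          have e : ((m + s : ℕ) : ℤ) = -(-(m : ℤ) - (s : ℤ)) := by push_cast; ring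
          rw [e, dvd_neg]
          exact h3
        exact_mod_cast h4
      · rw [mem_image]
        refine ⟨((s : ℤ) % q).toNat, ?_, ?_⟩
        · rw [mem_range]
          have h5 := Int.emod_lt_of_pos (s : ℤ) hq0
          have h6 := Int.emod_nonneg (s : ℤ) hq0.ne'
          omega
        · exact Int.toNat_of_nonneg (Int.emod_nonneg _ hq0.ne')
    refine lt_of_le_of_lt (card_le_card h1) ?_
    have h2 : ((-(m : ℤ)) % q) ∈ (range q).image (fun a : ℕ => (a : ℤ)) := by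
      have hq0 : (0 : ℤ) < q := by exact_mod_cast hq.pos
      rw [mem_image]
      refine ⟨((-(m : ℤ)) % q).toNat, ?_, ?_⟩
      · rw [mem_range]
        have h5 := Int.emod_lt_of_pos (-(m : ℤ)) hq0
        have h6 := Int.emod_nonneg (-(m : ℤ)) hq0.ne'
        omega
      · exact Int.toNat_of_nonneg (Int.emod_nonneg _ hq0.ne')
    rw [card_erase_of_mem h2, card_image_of_injective _ Nat.cast_injective, card_range]
    exact Nat.sub_lt hq.pos one_pos
  · refine lt_of_le_of_lt card_image_le ?_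
    rw [iT_card]
    have h1 := card_le_card hsub
    rw [Nat.card_Ioc] at h1
    omega

theorem pos_sub {j x k n : ℕ} (hx : (k : ℝ) ≤ (x : ℝ) ^ (1 / (j : ℝ))) : pos j x k n ⊆ unsifted n k := by
  classical
  intro t ht
  unfold pos at ht
  unfold unsifted
  rw [mem_filter] at ht ⊢
  refine ⟨ht.1, fun p hp hpk hd => ?_⟩
  have h1 := ht.2.2.2 p hp hd
  have h2 : (p : ℝ) ≤ k := by exact_mod_cast hpk
  linarith

theorem cnt_le {j x k n : ℕ} {T : Finset ℕ} (hT : Ext k T) (hx : (k : ℝ) ≤ (x : ℝ) ^ (1 / (j : ℝ))) :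
    cnt j x n k ≤ T.card := by
  rw [cnt_eq]
  exact (card_le_card (pos_sub hx)).trans (hT.2 n)

theorem cnt_of_Rg {j x k : ℕ} {T : Finset ℕ} {y X n : ℕ} (hT : Ext k T)
    (hx : (k : ℝ) ≤ (x : ℝ) ^ (1 / (j : ℝ))) (hn : n ∈ Pool.Agent.X26.MC.Rg j x (iT T) y X) :
    cnt j x n k = T.card := by
  classical
  apply le_antisymm (cnt_le hT hx)
  rw [cnt_eq]
  apply card_le_card
  unfold Pool.Agent.X26.MC.Rg at hn
  rw [mem_filter] at hn
  intro t ht
  unfold pos
  rw [mem_filter]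
  refine ⟨ext_sub hT ht, ?_⟩
  have h1 := hn.2 t (mem_iT.2 ⟨t, ht, rfl⟩)
  unfold Pool.Agent.Y843.AC.HL.Alm at h1
  rw [← Nat.cast_add, Int.natAbs_natCast] at h1
  simp only [ne_eq, Nat.cast_eq_zero, Int.natCast_dvd_natCast] at h1
  exact h1

theorem large {j : ℕ} (hj : 1 ≤ j) {x k : ℕ} (hx : k ^ j ≤ x) : (k : ℝ) ≤ (x : ℝ) ^ (1 / (j : ℝ)) := by
  have h1 : ((k : ℝ) ^ j) ≤ x := by exact_mod_cast hx
  have h2 : (k : ℝ) = ((k : ℝ) ^ j) ^ (1 / (j : ℝ)) := by
    rw [one_div, Real.pow_rpow_inv_natCast (Nat.cast_nonneg k) (by omega)]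
  rw [h2]
  exact Real.rpow_le_rpow (by positivity) h1 (by positivity)

/-- a set which misses a class modulo every prime is contained in the unsifted positions of an interval -/
theorem ext_ge {y : ℕ} {S : Finset ℤ} (hS : ∀ s ∈ S, 0 ≤ s ∧ (s : ℝ) < y)
    (hA : ∀ q : ℕ, q.Prime → ∃ r : ℤ, ∀ s ∈ S, ¬ ((q : ℤ) ∣ s - r)) {T : Finset ℕ} (hT : Ext y T) :
    S.card ≤ T.card := by
  classical
  have hA' : ∀ q : ℕ, ∃ r : ℤ, q.Prime → ∀ s ∈ S, ¬ ((q : ℤ) ∣ s - r) := by
    intro q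
    by_cases hq : q.Prime
    · obtain ⟨r, hr⟩ := hA q hq
      exact ⟨r, fun _ => hr⟩
    · exact ⟨0, fun h => absurd h hq⟩
  choose r hr using hA'
  obtain ⟨P, hP⟩ : ∃ P : Finset ℕ, P = (Icc 1 y).filter Nat.Prime := ⟨_, rfl⟩
  have hPp : ∀ p ∈ P, p.Prime := fun p hp => by rw [hP, mem_filter] at hp; exact hp.2
  obtain ⟨m, hm⟩ := Nat.chineseRemainderOfFinset (fun p => ((-1 - r p) % (p : ℤ)).toNat) (fun p => p) P
    (fun p hp => (hPp p hp).ne_zero) (by
      intro a ha b hb hab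
      exact (Nat.coprime_primes (hPp a ha) (hPp b hb)).2 hab)
  refine le_trans ?_ (hT.2 m)
  have h1 : (S.image (fun s : ℤ => (s + 1).toNat)).card = S.card := by
    apply card_image_of_injOn
    intro a ha b hb hab
    have h2 := (hS a ha).1
    have h3 := (hS b hb).1
    change (a + 1).toNat = (b + 1).toNat at hab
    omega
  rw [← h1]
  apply card_le_card
  intro t ht
  rw [mem_image] at ht
  obtain ⟨s, hs, rfl⟩ := ht
  have hs0 := (hS s hs).1
  have hsy : s < y := by exact_mod_cast (hS s hs).2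
  unfold unsifted
  rw [mem_filter, mem_Ioc]
  refine ⟨⟨by omega, by omega⟩, fun p hp hpy hd => ?_⟩
  have hpP : p ∈ P := by
    rw [hP, mem_filter, mem_Icc]
    exact ⟨⟨hp.pos, hpy⟩, hp⟩
  have h2 := hm p hpP
  have hp0 : (0 : ℤ) < p := by exact_mod_cast hp.pos
  have h3 : (m : ℤ) ≡ -1 - r p [ZMOD p] := by
    have h4 : (m : ℤ) ≡ ((((-1 - r p) % (p : ℤ)).toNat : ℕ) : ℤ) [ZMOD p] := (Int.natCast_modEq_iff).2 h2
    rw [Int.toNat_of_nonneg (Int.emod_nonneg _ hp0.ne')] at h4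
    exact h4.trans (Int.mod_modEq _ _)
  apply hr p hp s hs
  have h5 : (p : ℤ) ∣ (m : ℤ) + (s + 1) := by
    have h6 : ((m + (s + 1).toNat : ℕ) : ℤ) = (m : ℤ) + (s + 1) := by
      rw [Nat.cast_add, Int.toNat_of_nonneg (by omega)]
    rw [← h6]
    exact_mod_cast hd
  have h7 : (p : ℤ) ∣ (-1 - r p) - m := Int.ModEq.dvd h3
  have h8 : s - r p = ((m : ℤ) + (s + 1)) + ((-1 - r p) - m) := by ring
  rw [h8]
  exact dvd_add h5 h7

/-- more than `π(y)` positions -/
theorem ext_hr {α : ℝ} (hα : α < 1 / 2) : ∃ y₀ : ℕ, ∀ y : ℕ, y₀ ≤ y → ∀ T, Ext y T →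
    (Nat.primeCounting y : ℝ) + α * (y * Real.log (Real.log (Real.log y)) / Real.log y ^ 2) ≤ (T.card : ℝ) := by
  obtain ⟨x₀, h⟩ := Pool.Agent.H381R2.HR.final hα
  refine ⟨⌈x₀⌉₊, fun y hy T hT => ?_⟩
  obtain ⟨S, _, h1, h2, h3⟩ := h y ((Nat.le_ceil _).trans (by exact_mod_cast hy))
  rw [Nat.floor_natCast] at h3
  refine h3.trans ?_
  exact_mod_cast ext_ge h1 h2 hT

end Pool.Agent.X26.SV
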