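import Pool.Agent.X26.MC.Short

/-!
# Fixed sets of positions in a window of length `k`: almost primes in short intervals, common patterns
-/

set_option autoImplicit false

namespace Pool.Agent.X26.SV

open Finset Filter
open Pool.Agent.Y843.AC.HL (Tup gg nu Adm Tp Rough Sing loc gg_pos Alm Sing_low)
open Pool.Agent.X26.GP (TF)
open Pool.Agent.X26.MC (Rg Rg_sub Rg_rough lowR tupM)

/-- the set of the positions as a set of integers -/
def iT (T : Finset ℕ) : Finset ℤ := T.image (fun t : ℕ => (t : ℤ))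

theorem iT_card (T : Finset ℕ) : (iT T).card = T.card := by
  unfold iT
  exact card_image_of_injective _ Nat.cast_injective

theorem mem_iT {T : Finset ℕ} {v : ℤ} : v ∈ iT T ↔ ∃ t ∈ T, (t : ℤ) = v := by
  unfold iT
  rw [mem_image]

theorem tup_iT {k x r : ℕ} (hx : k ≤ x) {T : Finset ℕ} (hT : T ⊆ Ioc 0 k) (hr : T.card = r)
    (hA : Adm (iT T)) : Tup r x (iT T) := by
  refine ⟨(iT_card T).trans hr, hA, ?_⟩
  intro t ht
  obtain ⟨s, hs, rfl⟩ := mem_iT.1 ht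
  have := (mem_Ioc.1 (hT hs)).2
  rw [abs_of_nonneg (by positivity)]
  exact_mod_cast this.trans hx

/-- positive lower bound for finitely many constants -/
theorem fin_low {C : ℕ → ℝ} (hC : ∀ n, 0 < C n) (R : ℕ) : ∃ c : ℝ, 0 < c ∧ ∀ n ≤ R, c ≤ C n := by
  obtain ⟨c, hc, h⟩ := Pool.Agent.X26.MC.fin_pos (fun i : Fin (R + 1) => C i) (fun i => hC i)
  exact ⟨c, hc, fun n hn => h ⟨n, by omega⟩⟩

theorem Sing_up (k : ℕ) : ∃ C : ℝ, 0 < C ∧ ∀ T ⊆ Ioc 0 k, Sing (iT T) ≤ C := by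
  refine ⟨1 + ∑ T ∈ (Ioc 0 k).powerset, |Sing (iT T)|, by positivity, fun T hT => ?_⟩
  have h1 : |Sing (iT T)| ≤ ∑ T ∈ (Ioc 0 k).powerset, |Sing (iT T)| :=
    single_le_sum (f := fun T => |Sing (iT T)|) (fun _ _ => abs_nonneg _) (mem_powerset.2 hT)
  have h2 := le_abs_self (Sing (iT T))
  linarith

theorem gg_eq {r x : ℕ} {T : Finset ℤ} (hT : T.card = r) : gg T x = Sing T / Real.log x ^ r := by
  have e : gg T x = Sing T / Real.log x ^ T.card := rfl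
  rw [e, hT]

/-- **the lower bound and the common patterns** -/
theorem main (k r : ℕ) {θ : ℝ} (hθ : 0 < θ) : ∃ j : ℕ, 1 ≤ j ∧ ∃ c₀ : ℝ, 0 < c₀ ∧
    (∃ x₀ : ℕ, ∀ x : ℕ, x₀ ≤ x → ∀ T ⊆ Ioc 0 k, T.card = r → Adm (iT T) → ∀ y X : ℕ, (x : ℝ) ^ θ ≤ X →
      y + X ≤ x → c₀ * (X / Real.log x ^ r) ≤ ((Rg j x (iT T) y X).card : ℝ)) ∧
    ∀ (M m κ : ℕ) (δ : ℝ), 0 < δ → ∃ c : ℝ, 0 < c ∧ ∃ B x₀ : ℕ, ∀ x : ℕ, x₀ ≤ x →
      ∀ T : Fin M → Finset ℕ, (∀ i, T i ⊆ Ioc 0 k ∧ (T i).card = r ∧ Adm (iT (T i))) →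
      ∀ (y : Fin M → ℕ) (X D : ℕ), (x : ℝ) ^ θ ≤ X → X ≤ x → Real.log x ^ B ≤ D → D ≤ X →
      ∀ S : Fin M → Finset ℕ, (∀ i, S i ⊆ Rg j x (iT (T i)) (y i) X) →
      (∀ i, δ * (X / Real.log x ^ r) ≤ ((S i).card : ℝ)) →
      ∃ G : Finset (Fin m → ℕ), (∀ d ∈ G, ∀ l, 1 ≤ d l ∧ d l ≤ D) ∧ c * (D : ℝ) ^ m ≤ (G.card : ℝ) ∧ ∀ d ∈ G,
        ∀ F : Finset (Fin m → ℕ), (∀ f ∈ F, ∀ l, f l < κ) → (fun _ => 0) ∈ F → ∀ i,
        (TF (iT (T i)) d F).card = r * F.card ∧ Adm (TF (iT (T i)) d F) ∧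
        c * (Sing (TF (iT (T i)) d F) * (X / Real.log x ^ (r * F.card))) ≤
          (((S i).filter (fun n => ∀ f ∈ F, n + ∑ l, f l * d l ∈ S i)).card : ℝ) := by
  classical
  obtain ⟨j, hj1, hj⟩ := lowR r hθ
  obtain ⟨c₁, hc₁, x₁, h1⟩ := hj j le_rfl
  obtain ⟨s, hs, hsl⟩ := Sing_low r
  refine ⟨j, hj1, c₁ * s, by positivity, ⟨max x₁ (k + 3), fun x hx T hT hr hA y X hX hyX => ?_⟩, ?_⟩
  · have h2 := h1 x ((le_max_left _ _).trans hx) (iT T)
      (tup_iT (le_trans (by omega) ((le_max_right _ _).trans hx)) hT hr hA) y X hX hyX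
    refine le_trans ?_ h2
    rw [gg_eq ((iT_card T).trans hr)]
    have h3 := hsl (iT T) ((iT_card T).trans hr) hA
    have hlx : 0 ≤ Real.log x := Real.log_natCast_nonneg x
    have e1 : c₁ * s * (X / Real.log x ^ r) = c₁ * (X * (s / Real.log x ^ r)) := by ring
    rw [e1]
    apply mul_le_mul_of_nonneg_left _ hc₁.le
    apply mul_le_mul_of_nonneg_left _ (Nat.cast_nonneg _)
    exact div_le_div_of_nonneg_right h3 (by positivity)
  · intro M m κ δ hδ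
    obtain ⟨C, hC, hCT⟩ := Sing_up k
    obtain ⟨c, hc, B, x₂, h2⟩ := tupM M m κ (fun _ => r) j hj1 hθ (δ := δ / C) (by positivity)
    refine ⟨c, hc, B, max x₂ (k + 3), fun x hx T hT y X D hX hXx hBD hDX S hS hSc => ?_⟩
    have hlx : 0 ≤ Real.log x := Real.log_natCast_nonneg x
    obtain ⟨G, g1, g2, g3⟩ := h2 x ((le_max_left _ _).trans hx) (fun i => iT (T i))
      (fun i => tup_iT (le_trans (by omega) ((le_max_right _ _).trans hx)) (hT i).1 (hT i).2.1 (hT i).2.2)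
      y X D hX hXx hBD hDX S (fun i => (hS i).trans (Rg_sub _ _ _ _ _))
      (fun i n hn => Or.inr (Rg_rough n (hS i hn))) (fun i => by
        refine le_trans ?_ (hSc i)
        rw [gg_eq ((iT_card (T i)).trans (hT i).2.1)]
        have e1 : δ / C * (X * (Sing (iT (T i)) / Real.log x ^ r)) =
          δ * (X / Real.log x ^ r) * (Sing (iT (T i)) / C) := by ring
        rw [e1]
        have h5 : Sing (iT (T i)) / C ≤ 1 := by
          rw [div_le_one hC]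
          exact hCT _ (hT i).1
        exact mul_le_of_le_one_right (by positivity) h5)
    refine ⟨G, ?_, g2, fun d hd F hF hF0 i => ?_⟩
    · intro d hd l
      have := g1 hd
      rw [Fintype.mem_piFinset] at this
      exact mem_Icc.1 (this l)
    · obtain ⟨k1, k2, k3⟩ := g3 d hd F hF hF0 i
      rw [gg_eq k1] at k3
      refine ⟨k1, k2, ?_⟩
      refine le_trans (le_of_eq ?_) k3
      ring

end Pool.Agent.X26.SV
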