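import Pool.Agent.X26.SV.Ext

/-!
# Windows of several lengths at once
-/

set_option autoImplicit false

namespace Pool.Agent.X26.SV

open Finset Filter
open Pool.Agent.Y843.AC.HL (Tup gg nu Adm Tp Rough Sing loc gg_pos Alm Sing_low)
open Pool.Agent.X26.GP (TF)
open Pool.Agent.X26.MC (Rg Rg_sub Rg_rough lowR tupM shortM)

theorem box_card {m κ : ℕ} {F : Finset (Fin m → ℕ)} (hF : ∀ f ∈ F, ∀ l, f l < κ) : F.card ≤ κ ^ m := by
  have h1 : F ⊆ Fintype.piFinset (fun _ : Fin m => range κ) := by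
    intro f hf
    rw [Fintype.mem_piFinset]
    exact fun l => mem_range.2 (hF f hf l)
  refine (card_le_card h1).trans ?_
  rw [Fintype.card_piFinset, prod_const, card_range, card_univ, Fintype.card_fin]

/-- **windows of several lengths: the lower bound and the common patterns** -/
theorem mainM (M : ℕ) (k r : Fin M → ℕ) {θ : ℝ} (hθ : 0 < θ) : ∃ j : ℕ, 1 ≤ j ∧ ∃ c₀ : ℝ, 0 < c₀ ∧
    (∃ x₀ : ℕ, ∀ x : ℕ, x₀ ≤ x → ∀ i, ∀ T ⊆ Ioc 0 (k i), T.card = r i → Adm (iT T) → ∀ y X : ℕ,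
      (x : ℝ) ^ θ ≤ X → y + X ≤ x → c₀ * (X / Real.log x ^ r i) ≤ ((Rg j x (iT T) y X).card : ℝ)) ∧
    ∀ (m κ : ℕ), ∃ c : ℝ, 0 < c ∧ ∃ B x₀ : ℕ, ∀ x : ℕ, x₀ ≤ x →
      ∀ T : Fin M → Finset ℕ, (∀ i, T i ⊆ Ioc 0 (k i) ∧ (T i).card = r i ∧ Adm (iT (T i))) →
      ∀ (y : Fin M → ℕ) (X D : ℕ), (x : ℝ) ^ θ ≤ X → X ≤ x → (∀ i, y i + X ≤ x) → Real.log x ^ B ≤ D → D ≤ X →
      ∃ G : Finset (Fin m → ℕ), (∀ d ∈ G, ∀ l, 1 ≤ d l ∧ d l ≤ D) ∧ c * (D : ℝ) ^ m ≤ (G.card : ℝ) ∧ ∀ d ∈ G,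
        ∀ F : Finset (Fin m → ℕ), (∀ f ∈ F, ∀ l, f l < κ) → (fun _ => 0) ∈ F → ∀ i,
        c * (X / Real.log x ^ (r i * F.card)) ≤
          (((Rg j x (iT (T i)) (y i) X).filter
            (fun n => ∀ f ∈ F, n + ∑ l, f l * d l ∈ Rg j x (iT (T i)) (y i) X)).card : ℝ) := by
  classical
  obtain ⟨j, hj, c₁, hc₁, ⟨x₁, h1⟩, h2⟩ := shortM M r hθ
  choose s hs hsl using Sing_low
  obtain ⟨R, hR⟩ : ∃ R : ℕ, ∀ i, r i ≤ R := ⟨univ.sup r, fun i => le_sup (mem_univ i)⟩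
  obtain ⟨s₀, hs₀, hs₀l⟩ := fin_low hs R
  have hsm : ∀ (i : Fin M) (T : Finset ℤ) (x X : ℕ), T.card = r i → Adm T →
      s₀ * (X / Real.log x ^ r i) ≤ X * gg T x := by
    intro i T x X hT hA
    have hlx : 0 ≤ Real.log x := Real.log_natCast_nonneg x
    rw [gg_eq hT]
    have h3 := (hs₀l (r i) (hR i)).trans (hsl (r i) T hT hA)
    have e1 : s₀ * (X / Real.log x ^ r i) = X * (s₀ / Real.log x ^ r i) := by ring
    rw [e1]
    apply mul_le_mul_of_nonneg_left _ (Nat.cast_nonneg _)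
    exact div_le_div_of_nonneg_right h3 (by positivity)
  obtain ⟨K, hK⟩ : ∃ K : ℕ, ∀ i, k i ≤ K := ⟨univ.sup k, fun i => le_sup (mem_univ i)⟩
  refine ⟨j, hj, c₁ * s₀, by positivity, ⟨max x₁ (K + 3), fun x hx i T hT hr hA y X hX hyX => ?_⟩, ?_⟩
  · have hkx : k i ≤ x := le_trans ((hK i).trans (by omega)) ((le_max_right _ _).trans hx)
    have h3 := h1 x ((le_max_left _ _).trans hx) i (iT T) (tup_iT hkx hT hr hA) y X hX hyX
    refine le_trans ?_ h3
    rw [mul_assoc]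
    exact mul_le_mul_of_nonneg_left (hsm i _ x X ((iT_card T).trans hr) hA) hc₁.le
  · intro m κ
    obtain ⟨c, hc, B, x₂, h3⟩ := h2 m κ c₁ hc₁
    obtain ⟨s₁, hs₁, hs₁l⟩ := fin_low hs (R * κ ^ m)
    refine ⟨min c (c * s₁), by positivity, B, max (max x₁ x₂) (K + 3), fun x hx T hT y X D hX hXx hyX hBD hDX => ?_⟩
    have e1 : x₁ ≤ x := (le_max_left _ _).trans ((le_max_left _ _).trans hx)
    have e2 : x₂ ≤ x := (le_max_right _ _).trans ((le_max_left _ _).trans hx)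
    have e3 : K + 3 ≤ x := (le_max_right _ _).trans hx
    have hlx : 0 ≤ Real.log x := Real.log_natCast_nonneg x
    have htup : ∀ i, Tup (r i) x (iT (T i)) := fun i =>
      tup_iT (le_trans (hK i) (by omega)) (hT i).1 (hT i).2.1 (hT i).2.2
    obtain ⟨G, g1, g2, g3⟩ := h3 x e2 (fun i => iT (T i)) htup y X D hX hXx hBD hDX
      (fun i => Rg j x (iT (T i)) (y i) X) (fun i => Subset.refl _)
      (fun i => h1 x e1 i (iT (T i)) (htup i) (y i) X hX (hyX i))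
    refine ⟨G, ?_, ?_, fun d hd F hF hF0 i => ?_⟩
    · intro d hd l
      have := g1 hd
      rw [Fintype.mem_piFinset] at this
      exact mem_Icc.1 (this l)
    · refine le_trans ?_ g2
      exact mul_le_mul_of_nonneg_right (min_le_left _ _) (by positivity)
    · obtain ⟨k1, k2, k3⟩ := g3 d hd F hF hF0 i
      refine le_trans ?_ k3
      have h4 : s₁ ≤ Sing (TF (iT (T i)) d F) :=
        (hs₁l (r i * F.card) (Nat.mul_le_mul (hR i) (box_card hF))).trans (hsl _ _ k1 k2)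
      rw [gg_eq k1]
      calc min c (c * s₁) * (X / Real.log x ^ (r i * F.card))
          ≤ c * s₁ * (X / Real.log x ^ (r i * F.card)) :=
            mul_le_mul_of_nonneg_right (min_le_right _ _) (by positivity)
        _ = c * (X * (s₁ / Real.log x ^ (r i * F.card))) := by ring
        _ ≤ _ := by
          apply mul_le_mul_of_nonneg_left _ hc.le
          apply mul_le_mul_of_nonneg_left _ (Nat.cast_nonneg _)
          exact div_le_div_of_nonneg_right h4 (by positivity)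

end Pool.Agent.X26.SV
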